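import Pool.Agent.Q166.SYT.CNT
import Pool.Agent.Q166.SYT.MC
import Pool.Agent.Q79.SY.UP
import Pool.Agent.Q79.SY.DOWN
import Pool.Agent.Q121.SY.Ch
import Pool.Agent.Q121.SY.Geo
import Pool.Agent.Q121.SY.Int
import Pool.Agent.Q121.SY.Tri

/-!
# Project SY: assembly
-/

set_option autoImplicit false

namespace Pool.Agent.Q160.SY

open Finset MeasureTheory
open scoped ENNReal Nat

theorem ch2 : J_CH2 := Q121.SY.t_CH2 (Q121.SY.t_CH1 Pool.Agent.Q79.SY.t_UP) Pool.Agent.Q79.SY.t_DOWN

theorem meas_K (p d : ℕ) : Measurable (Function.uncurry (K p d)) := by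
  classical
  have hex : ∀ (k t : ℕ), Measurable (fun y : Fin k → ℝ => ex y t) := by
    intro k t
    unfold ex
    by_cases h : t < k
    · simp only [h, dif_pos]
      exact measurable_pi_apply _
    · simp only [h, dif_neg, not_false_iff]
      exact measurable_const
  have h1 : MeasurableSet {z : (Fin (len p d) → ℝ) × (Fin (len p (d + 1)) → ℝ) | Link p d z.1 z.2} := by
    unfold Link
    split_ifs with h h'
    · have : {z : (Fin (len p d) → ℝ) × (Fin (len p (d + 1)) → ℝ) | ∀ t ≤ d, ex z.2 t < ex z.1 t ∧ ex z.1 t < ex z.2 (t + 1)} =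
          ⋂ t, ⋂ (_ : t ≤ d), {z | ex z.2 t < ex z.1 t ∧ ex z.1 t < ex z.2 (t + 1)} := by
        ext z
        simp
      rw [this]
      refine MeasurableSet.iInter fun t => MeasurableSet.iInter fun _ => ?_
      exact (measurableSet_lt ((hex _ _).comp measurable_snd) ((hex _ _).comp measurable_fst)).inter
        (measurableSet_lt ((hex _ _).comp measurable_fst) ((hex _ _).comp measurable_snd))
    · have : {z : (Fin (len p d) → ℝ) × (Fin (len p (d + 1)) → ℝ) | ∀ t < 2 * p + 4 - d, ex z.1 t < ex z.2 t ∧ ex z.2 t < ex z.1 (t + 1)} =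
          ⋂ t, ⋂ (_ : t < 2 * p + 4 - d), {z | ex z.1 t < ex z.2 t ∧ ex z.2 t < ex z.1 (t + 1)} := by
        ext z
        simp
      rw [this]
      refine MeasurableSet.iInter fun t => MeasurableSet.iInter fun _ => ?_
      exact (measurableSet_lt ((hex _ _).comp measurable_fst) ((hex _ _).comp measurable_snd)).inter
        (measurableSet_lt ((hex _ _).comp measurable_snd) ((hex _ _).comp measurable_fst))
    · exact (measurableSet_lt ((hex _ _).comp measurable_fst) ((hex _ _).comp measurable_snd)).inter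
        (measurableSet_lt ((hex _ _).comp measurable_snd) ((hex _ _).comp measurable_fst))
  have h2 : Function.uncurry (K p d) = fun z => if Link p d z.1 z.2 then 1 else 0 := by
    funext z
    rfl
  rw [h2]
  exact Measurable.ite h1 measurable_const measurable_const

theorem len_a (p : ℕ) : len p (2 * p + 2) = 3 := by
  unfold len
  split_ifs with h1 h2 <;> omega

theorem len_b (p : ℕ) : len p (2 * p + 3) = 1 := by
  unfold len
  split_ifs with h1 h2 <;> omega

/-- the last row -/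
theorem last_row (k : ℕ) (hk : k = 1) (a b : ℝ) (ha : 0 < a) (hb : b < 1) :
    (Measure.pi (fun _ : Fin k => U)) {y | a < ex y 0 ∧ ex y 0 < b} = ENNReal.ofReal (b - a) := by
  subst hk
  have h1 : {y : Fin 1 → ℝ | a < ex y 0 ∧ ex y 0 < b} = Set.univ.pi (fun _ : Fin 1 => Set.Ioo a b) := by
    ext y
    simp [ex]
  rw [h1, Measure.pi_pi]
  simp only [univ_unique, Fin.default_eq_zero, prod_const, card_singleton, pow_one]
  have h2 : Set.Ioo a b ∩ Set.Ioo 0 1 = Set.Ioo a b := by
    refine Set.inter_eq_left.2 (fun x hx => ?_)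
    rw [Set.mem_Ioo] at hx ⊢
    exact ⟨ha.trans hx.1, hx.2.trans hb⟩
  unfold U
  rw [Measure.restrict_apply measurableSet_Ioo, h2, Real.volume_Ioo]

open Classical in
/-- the integral over the row with three entries -/
theorem three (p k : ℕ) (hk : k = 3) (c : ℝ) (hc : 0 ≤ c) :
    ∫⁻ x : Fin k → ℝ, (if StrictMono x then ENNReal.ofReal (c * ((Matrix.vandermonde x).det * ∏ t, (x t * (1 - x t)) ^ p)) else 0) *
      ENNReal.ofReal (ex x 2 - ex x 1) ∂(Measure.pi (fun _ => U)) =
    ENNReal.ofReal (c * (3 * ((3 * p + 5)! : ℝ) ^ 2 / ((6 * p + 10)! * (2 * p + 3) * (p + 2) * (p + 1) ^ 2))) := by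
  subst hk
  have hopen : ∀ x : Fin 3 → ℝ, StrictMono x ↔ x 0 < x 1 ∧ x 1 < x 2 := by
    intro x
    constructor
    · intro h
      exact ⟨h (by decide), h (by decide)⟩
    · rintro ⟨h1, h2⟩
      refine Fin.strictMono_iff_lt_succ.2 (fun i => ?_)
      fin_cases i
      · exact h1
      · exact h2
  have hC : MeasurableSet {x : Fin 3 → ℝ | StrictMono x} := by
    have : {x : Fin 3 → ℝ | StrictMono x} = {x | x 0 < x 1} ∩ {x | x 1 < x 2} := by
      ext x
      exact hopen x
    rw [this]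
    exact (measurableSet_lt (measurable_pi_apply (0 : Fin 3)) (measurable_pi_apply (1 : Fin 3))).inter
      (measurableSet_lt (measurable_pi_apply (1 : Fin 3)) (measurable_pi_apply (2 : Fin 3)))
  set B : Set (Fin 3 → ℝ) := {x : Fin 3 → ℝ | StrictMono x ∧ ∀ i, x i ∈ Set.Ioo (0 : ℝ) 1} with hBdef
  have hB : MeasurableSet B := by
    have : B = {x : Fin 3 → ℝ | StrictMono x} ∩ Q121.SY.box 3 := by
      ext x
      rw [hBdef]
      constructor
      · rintro ⟨h1, h2⟩
        exact ⟨h1, Q121.SY.mem_box.2 h2⟩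
      · rintro ⟨h1, h2⟩
        exact ⟨h1, Q121.SY.mem_box.1 h2⟩
    rw [this]
    exact hC.inter (Q121.SY.meas_box 3)
  set f : (Fin 3 → ℝ) → ℝ := fun x => c * ((x 2 - x 1) * ((Matrix.vandermonde x).det * ∏ i, (x i * (1 - x i)) ^ p)) with hf
  have hfc : Continuous f := by
    have h1 := Q121.SY.cont_det (k := 3)
    have h2 : Continuous (fun x : Fin 3 → ℝ => ∏ i, (x i * (1 - x i)) ^ p) :=
      continuous_finsetProd _ (fun i _ => by fun_prop)
    have h3 : Continuous (fun x : Fin 3 → ℝ => x 2 - x 1) := by fun_prop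
    exact continuous_const.mul (h3.mul (h1.mul h2))
  have e1 : ∀ x : Fin 3 → ℝ, (if StrictMono x then ENNReal.ofReal (c * ((Matrix.vandermonde x).det * ∏ t, (x t * (1 - x t)) ^ p)) else 0) *
      ENNReal.ofReal (ex x 2 - ex x 1) = {x : Fin 3 → ℝ | StrictMono x}.indicator (fun x =>
        ENNReal.ofReal (c * ((Matrix.vandermonde x).det * ∏ t, (x t * (1 - x t)) ^ p)) * ENNReal.ofReal (x 2 - x 1)) x := by
    intro x
    rw [Set.indicator_apply]
    by_cases h : StrictMono x
    · rw [if_pos h, if_pos (show x ∈ {x : Fin 3 → ℝ | StrictMono x} from h)]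
      congr 2
    · rw [if_neg h, if_neg (show x ∉ {x : Fin 3 → ℝ | StrictMono x} from h), zero_mul]
  simp only [e1]
  rw [lintegral_indicator hC]
  have hnn : ∀ x ∈ B, 0 ≤ (Matrix.vandermonde x).det * ∏ t, (x t * (1 - x t)) ^ p := by
    intro x hx
    refine mul_nonneg (Q121.SY.det_nonneg hx.1) (prod_nonneg (fun i _ => ?_))
    have h1 := hx.2 i
    exact pow_nonneg (mul_nonneg h1.1.le (by linarith [h1.2])) _
  rw [Q121.SY.lint _ f hfc _ B hC hB (fun x hx => ⟨fun h => ⟨h, Q121.SY.mem_box.1 hx⟩, fun h => h.1⟩)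
    (fun x hx => Q121.SY.mem_box.2 hx.2) (fun x hx => ?_) (fun x hx => ?_)]
  · congr 1
    rw [hf, integral_const_mul, Q121.SY.t_TRI p, Q121.SY.t_INT p]
  · rw [← ENNReal.ofReal_mul (mul_nonneg hc (hnn x hx)), hf]
    congr 1
    ring
  · rw [hf]
    have h1 := ((hopen x).1 hx.1).2
    exact mul_nonneg hc (mul_nonneg (by linarith) (hnn x hx))

open Classical in
/-- **The volume of the order polytope.** -/
theorem volume_eq (p : ℕ) : μc (p + 3) {f | ∀ a b, Rel (p + 3) a b → f a < f b} =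
    ENNReal.ofReal ((F p : ℝ) ^ 2 / F (p + 3 + p) *
      (3 * ((3 * p + 5)! : ℝ) ^ 2 / ((6 * p + 10)! * (2 * p + 3) * (p + 2) * (p + 1) ^ 2))) := by
  rw [Q121.SY.Geo.t_GEO p]
  obtain ⟨hm, hint⟩ := Pool.Agent.Q166.SYT.t_MC (fun d => Fin (len p d) → ℝ) (μr p) (K p) (meas_K p)
  have h1 := hint (2 * p + 3) (fun _ => 1) measurable_const
  simp only [mul_one] at h1
  rw [h1]
  change ∫⁻ y, (∫⁻ x, hh (fun d => Fin (len p d) → ℝ) (μr p) (K p) (2 * p + 2) x * K p (2 * p + 2) x y ∂(μr p (2 * p + 2)))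
    ∂(μr p (2 * p + 3)) = _
  rw [lintegral_lintegral_swap]
  swap
  · have h2 : Measurable (fun z : (Fin (len p (2 * p + 3)) → ℝ) × (Fin (len p (2 * p + 2)) → ℝ) =>
        hh (fun d => Fin (len p d) → ℝ) (μr p) (K p) (2 * p + 2) z.2 * K p (2 * p + 2) z.2 z.1) :=
      ((hm (2 * p + 2)).comp measurable_snd).mul ((meas_K p (2 * p + 2)).comp measurable_swap)
    exact h2.aemeasurable
  have hh2 : ∀ d, d = p + 2 + p → ∀ y : Fin (len p d) → ℝ, (∀ t, y t ∈ Set.Ioo (0 : ℝ) 1) →
      hh (fun d => Fin (len p d) → ℝ) (μr p) (K p) d y = if StrictMono y then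
        ENNReal.ofReal ((F p : ℝ) ^ 2 / F (p + 3 + p) * ((Matrix.vandermonde y).det * ∏ t, (y t * (1 - y t)) ^ p)) else 0 := by
    rintro _ rfl y hy
    exact ch2 p p le_rfl y hy
  have hpos : (0 : ℝ) ≤ (F p : ℝ) ^ 2 / F (p + 3 + p) := by positivity
  rw [← three p (len p (2 * p + 2)) (len_a p) _ hpos]
  have hμ : μr p (2 * p + 2) = Measure.pi (fun _ => U) := rfl
  rw [hμ]
  refine lintegral_congr_ae ?_
  have hbox : ∀ᵐ x ∂(Measure.pi (fun _ : Fin (len p (2 * p + 2)) => U)), ∀ t, x t ∈ Set.Ioo (0 : ℝ) 1 := by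
    rw [Q121.SY.pi_U]
    filter_upwards [ae_restrict_mem (Q121.SY.meas_box _)] with x hx
    exact Q121.SY.mem_box.1 hx
  filter_upwards [hbox] with x hx
  have hKm : Measurable (fun y : Fin (len p (2 * p + 3)) → ℝ => K p (2 * p + 2) x y) :=
    (meas_K p (2 * p + 2)).comp (measurable_const.prodMk measurable_id)
  rw [lintegral_const_mul _ hKm, hh2 _ (by ring) x hx]
  by_cases hs : StrictMono x
  swap
  · rw [if_neg hs, zero_mul, zero_mul]
  congr 1
  have e1 : (2 : ℕ) < len p (2 * p + 2) := by rw [len_a]; norm_num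
  have hlink : ∀ y : Fin (len p (2 * p + 3)) → ℝ, K p (2 * p + 2) x y = {y : Fin (len p (2 * p + 3)) → ℝ |
      ex x 1 < ex y 0 ∧ ex y 0 < ex x 2}.indicator (fun _ => 1) y := by
    intro y
    unfold K Link
    rw [if_neg (show ¬ 2 * p + 2 + 1 ≤ p + 2 by omega), if_neg (show ¬ 2 * p + 2 + 1 ≤ 2 * p + 2 by omega)]
    rfl
  have hmeas : MeasurableSet {y : Fin (len p (2 * p + 3)) → ℝ | ex x 1 < ex y 0 ∧ ex y 0 < ex x 2} := by
    have h4 : Measurable (fun y : Fin (len p (2 * p + 3)) → ℝ => ex y 0) := by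
      unfold ex
      simp only [show 0 < len p (2 * p + 3) by rw [len_b]; norm_num, dif_pos]
      exact measurable_pi_apply _
    exact (measurableSet_lt measurable_const h4).inter (measurableSet_lt h4 measurable_const)
  have h5 : ∫⁻ y, K p (2 * p + 2) x y ∂(μr p (2 * p + 3)) =
      (Measure.pi (fun _ : Fin (len p (2 * p + 3)) => U)) {y | ex x 1 < ex y 0 ∧ ex y 0 < ex x 2} := by
    simp only [hlink]
    rw [lintegral_indicator hmeas, setLIntegral_one]
    rfl
  refine h5.trans ?_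
  have hx1 := hx ⟨1, by omega⟩
  have hx2 := hx ⟨2, e1⟩
  refine last_row _ (len_b p) (ex x 1) (ex x 2) ?_ ?_
  · unfold ex
    rw [dif_pos (show 1 < len p (2 * p + 2) by omega)]
    exact hx1.1
  · unfold ex
    rw [dif_pos e1]
    exact hx2.2

end Pool.Agent.Q160.SY
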