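import Mathlib

/-!
# Project SY: standard Young tableaux of a square without two corner cells (MP_6a062b_co)

`D n` is the `n × n` square without the cells `(1, n - 1)`, `(1, n)`; `n = p + 3`. The number of tableaux is `(n ^ 2 - 2)!` times the volume of
the order polytope (job CNT). The cells are sorted into the diagonals `j - i`, from the south-west corner to the north-east corner: row `d` has
`len p d` cells, `len p d = 1, 2, ..., n, n - 1, ..., 3, 1`. All relations are between neighbouring diagonals, so that the volume is an iterated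
integral (jobs MC, GEO). The integrals over the diagonals are determinants (jobs UP, DOWN); up to the diagonal with three cells one gets
`C * Vandermonde * ∏ (x (1 - x)) ^ p` (jobs CH1, CH2). The remaining integral in three variables is elementary (jobs TRI, INT).

Each job is a definition `J_… : Prop`; a theorem `t_… : J_…` (with the named jobs as hypotheses) is to be proved. The proofs are complete in the
docstrings.
-/

set_option autoImplicit false

namespace Pool.Agent.Q160.SY

open Finset MeasureTheory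
open scoped ENNReal Nat

/-- The uniform law on `(0, 1)`. -/
noncomputable def U : Measure ℝ := volume.restrict (Set.Ioo 0 1)

instance : IsProbabilityMeasure U := ⟨by simp [U]⟩

/-- The cells: the square without `(1, n - 1)`, `(1, n)`. -/
def D (n : ℕ) : Finset (ℕ × ℕ) := (Icc 1 n ×ˢ Icc 1 n) \ {(1, n - 1), (1, n)}

/-- Neighbouring cells in a row or a column. -/
def Rel (n : ℕ) (a b : {c : ℕ × ℕ // c ∈ D n}) : Prop := b.1 = (a.1.1, a.1.2 + 1) ∨ b.1 = (a.1.1 + 1, a.1.2)

/-- `F m = 0! 1! ... (m - 1)!`. -/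
def F (m : ℕ) : ℕ := ∏ j ∈ range m, j !

/-- **Job CNT.** The number of linear extensions is `N!` times the volume of the order polytope.
Proof. `N = card α`. For a bijection `e : α ≃ Fin N` let `V e = {f | StrictMono (f ∘ e.symm)}`. The sets `V e` are measurable, pairwise disjoint
(two of them share an `f` only if `e = e'`: `f` is injective and `e a` is the number of the `b` with `f b < f a`), they cover all injective `f` (sort the
values), and `{f | f a = f b}` is a null set for `a ≠ b`. They have the same measure, since permuting the coordinates preserves the measure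
(`measurePreserving_piCongrLeft` or `Measure.pi_map_piCongrLeft`), so each has measure `1 / N!` (`Fintype.card_equiv`). If
`f ∈ V e` then `f a < f b ↔ e a < e b`, so that up to null sets `{f | ∀ a b, R a b → f a < f b}` is the disjoint union of the `V e` over the `e` in
question. -/
def J_CNT : Prop := ∀ (α : Type) [Fintype α] [DecidableEq α] (R : α → α → Prop),
  (Nat.card {e : α ≃ Fin (Fintype.card α) // ∀ a b, R a b → e a < e b} : ℝ≥0∞) =
    ((Fintype.card α)! : ℝ≥0∞) * (Measure.pi (fun _ : α => U)) {f | ∀ a b, R a b → f a < f b}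

/-- The iterated integrals of a chain of kernels. -/
noncomputable def hh (X : ℕ → Type) [∀ d, MeasurableSpace (X d)] (μ : ∀ d, Measure (X d)) (K : ∀ d, X d → X (d + 1) → ℝ≥0∞) :
    ∀ d, X d → ℝ≥0∞
  | 0 => fun _ => 1
  | (d + 1) => fun y => ∫⁻ x, hh X μ K d x * K d x y ∂(μ d)

/-- **Job MC.** Integrals along a chain.
Proof. First `hh X μ K d` is measurable for all `d` (induction, `Measurable.lintegral_prod_left'` or similar). Then induction on `M` for all `f`:
split off the last coordinate with `measurePreserving_piFinSuccAbove (fun d : Fin (M + 2) => μ d) (Fin.last _)` and Tonelli; the inner integral over the other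
coordinates is the induction hypothesis for the function `x ↦ K M x y` (times the constant `f y`), and
`∫⁻ x, hh M x * K M x y = hh (M + 1) y`. `M = 0`: a product over one coordinate (`MeasurableEquiv.piUnique`, `measurePreserving_piUnique`). -/
def J_MC : Prop := ∀ (X : ℕ → Type) [∀ d, MeasurableSpace (X d)] (μ : ∀ d, Measure (X d)) [∀ d, IsProbabilityMeasure (μ d)]
  (K : ∀ d, X d → X (d + 1) → ℝ≥0∞), (∀ d, Measurable (Function.uncurry (K d))) →
  (∀ d, Measurable (hh X μ K d)) ∧ ∀ (M : ℕ) (f : X M → ℝ≥0∞), Measurable f →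
    ∫⁻ x : (∀ d : Fin (M + 1), X d), (∏ d : Fin M, K d (x d.castSucc) (x d.succ)) * f (x (Fin.last M))
      ∂(Measure.pi fun d : Fin (M + 1) => μ d) = ∫⁻ y, hh X μ K M y * f y ∂(μ M)

/-- The number of cells in row `d` (a diagonal), `d = 0, ..., 2 p + 3`. -/
def len (p d : ℕ) : ℕ := if d ≤ p + 2 then d + 1 else if d ≤ 2 * p + 2 then 2 * p + 5 - d else 1

/-- The entry `t` (`0` if there is none). -/
def ex {k : ℕ} (y : Fin k → ℝ) (t : ℕ) : ℝ := if h : t < k then y ⟨t, h⟩ else 0

/-- The relations between the rows `d`, `d + 1`. -/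
def Link (p d : ℕ) (x : Fin (len p d) → ℝ) (y : Fin (len p (d + 1)) → ℝ) : Prop :=
  if d + 1 ≤ p + 2 then ∀ t ≤ d, ex y t < ex x t ∧ ex x t < ex y (t + 1)
  else if d + 1 ≤ 2 * p + 2 then ∀ t < 2 * p + 4 - d, ex x t < ex y t ∧ ex y t < ex x (t + 1)
  else ex x 1 < ex y 0 ∧ ex y 0 < ex x 2

open Classical in
/-- The kernels. -/
noncomputable def K (p d : ℕ) (x : Fin (len p d) → ℝ) (y : Fin (len p (d + 1)) → ℝ) : ℝ≥0∞ := if Link p d x y then 1 else 0

/-- The law of a row: independent uniform entries. -/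
noncomputable def μr (p d : ℕ) : Measure (Fin (len p d) → ℝ) := Measure.pi (fun _ => U)

instance (p d : ℕ) : IsProbabilityMeasure (μr p d) := by
  unfold μr
  infer_instance

/-- Independent uniform entries in the cells. -/
noncomputable def μc (n : ℕ) : Measure ({c : ℕ × ℕ // c ∈ D n} → ℝ) := Measure.pi (fun _ => U)

/-- **Job GEO.** The cells are the entries of the rows.
Proof. Let `n = p + 3`. The pairs `(d, t)`, `d < 2 p + 4`, `t < len p d`, correspond to the cells of `D n`: `(n - d + t, 1 + t)` if `d ≤ p + 2`,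
`(1 + t, 1 + (d - (p + 2)) + t)` if `p + 3 ≤ d ≤ 2 p + 2` (this formula also holds for `d = p + 2`), `(2, n)` if `d = 2 p + 3` (so `d = j - i + n - 1`, and the cells
`(1, n - 1)`, `(1, n)` of the diagonals `2 p + 3`, `2 p + 4` are missing). `Rel` becomes: `Link` between neighbouring rows. The measure on the cells is carried
to the measure on `Σ d, Fin (len p d)` by `measurePreserving_piCongrLeft`, and to the product of the products by `Measure.infinitePi_map_piCurry` and
`Measure.infinitePi_eq_pi`. The product of the kernels is the indicator of all the links. -/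
def J_GEO : Prop := ∀ p : ℕ, μc (p + 3) {f | ∀ a b, Rel (p + 3) a b → f a < f b} =
  ∫⁻ x : (∀ d : Fin (2 * p + 3 + 1), (Fin (len p d) → ℝ)), ∏ d : Fin (2 * p + 3), K p d (x d.castSucc) (x d.succ)
    ∂(Measure.pi fun d : Fin (2 * p + 3 + 1) => μr p d)

/-- **Job UP.** Growing diagonals.
Proof. `(vandermonde a).det = det (a i ^ j)`. A determinant is a sum over permutations of products, so by `integral_fintype_prod_eq_prod` (the box is
a product; write it with the measure `Measure.pi (fun i => volume.restrict (Ioo (b i.castSucc) (b i.succ)))`, `Measure.restrict_pi_pi`) its integral over a box is the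
determinant of the integrals `(b (i + 1) ^ (j + 1) - b i ^ (j + 1)) / (j + 1)`. Take `1 / (j + 1)` out of column `j` (product `1 / k!`,
`Matrix.det_mul_row`/`det_mul_column`). The remaining determinant is that of `vandermonde b`: subtract from each row the previous one and expand along the first column
`(1, 0, ..., 0)` (see `Matrix.det_eq_of_forall_row_eq_smul_add_pred` and the proof of `Matrix.det_vandermonde`). -/
def J_UP : Prop := ∀ (k : ℕ) (b : Fin (k + 1) → ℝ), StrictMono b →
  ∫ a in Set.univ.pi (fun i : Fin k => Set.Ioo (b i.castSucc) (b i.succ)), (Matrix.vandermonde a).det = (Matrix.vandermonde b).det / k !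

/-- **Job DOWN.** Shrinking diagonals.
Proof. Let `w v = (v (1 - v)) ^ m`, `Ψ j v = v ^ (j - 1) * (v (1 - v)) ^ (m + 1)`, `j ≥ 1`. Then `Ψ j' = φ j * w` where
`φ j v = v ^ (j - 1) * ((j + m) - (j + 2 m + 1) v)`, a polynomial of degree `j` with leading coefficient `-(j + 2 m + 1)`; `φ 0 = 1`. So
`det (φ j (b i)) = (-1) ^ k * ∏_{j = 1}^k (j + 2 m + 1) * (vandermonde b).det` (`Matrix.det_eval_matrixOfPolynomials_eq_det_vandermonde` for monic polynomials, or column
operations). The integral of `det (φ j (b i) * w (b i))` over the box is the determinant of the one dimensional integrals (as in UP):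
column `j ≥ 1`: `Ψ j (hi i) - Ψ j (lo i)`, column `0`: `W (hi i) - W (lo i)`, `W v = ∫ u in 0..v, w u`, where `lo = (0, a 0, ..., a (k - 1))`, `hi = (a 0, ..., a (k - 1), 1)`.
Replace row `i` by the sum of the rows `≤ i`: it is `(W (hi i), Ψ 1 (hi i), ..., Ψ k (hi i))` (as `Ψ j 0 = 0`), the last row is `(W 1, 0, ..., 0)` (`Ψ j 1 = 0`). Expanding along
the last row the determinant is `(-1) ^ k * W 1 * det (Ψ (j + 1) (a i))_{i, j < k} = (-1) ^ k * W 1 * ∏ (a i (1 - a i)) ^ (m + 1) * (vandermonde a).det`, and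
`W 1 = (m!) ^ 2 / (2 m + 1)!` (Beta integral; by induction or from the library). -/
def J_DOWN : Prop := ∀ (k m : ℕ) (a : Fin k → ℝ), StrictMono a → (∀ i, a i ∈ Set.Ioo (0 : ℝ) 1) →
  ∫ b in Set.univ.pi (fun i : Fin (k + 1) => Set.Ioo ((Fin.cons 0 a : Fin (k + 1) → ℝ) i) ((Fin.snoc a 1 : Fin (k + 1) → ℝ) i)),
    (Matrix.vandermonde b).det * ∏ i, (b i * (1 - b i)) ^ m =
    (m ! : ℝ) ^ 2 / (2 * m + 1 + k)! * ((Matrix.vandermonde a).det * ∏ i, (a i * (1 - a i)) ^ (m + 1))

/-- The iterated integrals of the rows. -/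
noncomputable def h (p : ℕ) : ∀ d, (Fin (len p d) → ℝ) → ℝ≥0∞ := hh (fun d => Fin (len p d) → ℝ) (μr p) (K p)

open Classical in
/-- **Job CH1** (uses UP). The growing diagonals.
Proof. Induction on `d`; `d = 0`: `h = 1`, one entry, `vandermonde` is `1`, `F 1 = 1`. Step `d → d + 1 ≤ p + 2` (`len p d = d + 1`, `len p (d + 1) = d + 2`): in
`∫⁻ x, h p d x * K p d x y` almost all `x` have entries in `(0, 1)`, so the induction hypothesis applies. The link `y t < x t < y (t + 1)` (`t ≤ d`) implies that `x` and `y` are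
strictly increasing; so the integral is `0` if `y` is not, and otherwise it is the integral of `ofReal (det / F (d + 1))` over the box
`∏ (y t, y (t + 1)) ⊆ (0, 1) ^ (d + 1)`, by UP equal to `ofReal (det (vandermonde y) / ((d + 1)! * F (d + 1)))` (the determinant is positive for
increasing entries, `Matrix.det_vandermonde`). It may be convenient to state the step for `Fin k`, `Fin k'` with `k' = k + 1` and to `subst`. -/
def J_CH1 : Prop := ∀ p d : ℕ, d ≤ p + 2 → ∀ y : Fin (len p d) → ℝ, (∀ t, y t ∈ Set.Ioo (0 : ℝ) 1) →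
  h p d y = if StrictMono y then ENNReal.ofReal ((Matrix.vandermonde y).det / F (d + 1)) else 0

open Classical in
/-- **Job CH2** (uses CH1, DOWN). The shrinking diagonals.
Proof. Induction on `e`; `e = 0` is CH1 for `d = p + 2` (`F 0 = 1`). Step `e → e + 1 ≤ p`, `d = p + 2 + e`: `len p d = p + 3 - e` and `len p (d + 1) = p + 2 - e =: k`. As
in CH1: the link `x t < y t < x (t + 1)` (`t < k`) and `x ∈ (0, 1) ^ (k + 1)` say that `x t` lies between `y (t - 1)` (`0` for `t = 0`) and `y t` (`1` for `t = k`), which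
implies that `x` is strictly increasing, and (as `k ≥ 2`) that `y` is strictly increasing; DOWN with `m = e` gives the constant
`(e!) ^ 2 / (2 e + 1 + k)! = (e!) ^ 2 / (p + 3 + e)!`. -/
def J_CH2 : Prop := ∀ p e : ℕ, e ≤ p → ∀ y : Fin (len p (p + 2 + e)) → ℝ, (∀ t, y t ∈ Set.Ioo (0 : ℝ) 1) →
  h p (p + 2 + e) y = if StrictMono y then
    ENNReal.ofReal ((F e : ℝ) ^ 2 / F (p + 3 + e) * ((Matrix.vandermonde y).det * ∏ t, (y t * (1 - y t)) ^ e)) else 0

/-- The moments. -/
noncomputable def mo (p k : ℕ) (x : ℝ) : ℝ := ∫ t in x..1, (t - x) ^ k * (t * (1 - t)) ^ p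

/-- **Job TRI.** Two of the three integrals.
Proof. `(vandermonde x).det = (x 1 - x 0) (x 2 - x 0) (x 2 - x 1)` (`Matrix.det_vandermonde`, `Fin.prod_univ_three` or `decide`-like simp). With `x = x 0`, `t = x 1`, `u = x 2`,
`g y = (y (1 - y)) ^ p` the integral is `∫_0^1 g x ∫∫_{x < t < u < 1} (t - x) (u - x) (u - t) ^ 2 g t g u`
(`measurePreserving_piFinSuccAbove` twice, or `volume_preserving_piFinTwo`, `MeasureTheory.integral_prod`). The integrand of the inner integral is
symmetric in `t, u`, so the inner integral is half of that over `(x, 1) ^ 2`; `(t - x) (u - x) (u - t) ^ 2 = T U ^ 3 + T ^ 3 U - 2 T ^ 2 U ^ 2` with `T = t - x`,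
`U = u - x`, so it is `m₁ m₃ - m₂ ^ 2`. -/
def J_TRI : Prop := ∀ p : ℕ,
  ∫ x in {x : Fin 3 → ℝ | StrictMono x ∧ ∀ i, x i ∈ Set.Ioo (0 : ℝ) 1},
    (x 2 - x 1) * ((Matrix.vandermonde x).det * ∏ i, (x i * (1 - x i)) ^ p) =
    ∫ x in (0 : ℝ)..1, (x * (1 - x)) ^ p * (mo p 1 x * mo p 3 x - mo p 2 x ^ 2)

/-- **Job INT.** The last integral.
Proof. Let `q = x (1 - x)`, `s = 1 - 2 x`, `g = q ^ p`, `m k = mo p k x`, `D = 2 p + 3`. As `t (1 - t) = q + s (t - x) - (t - x) ^ 2` and `1 - 2 t = s - 2 (t - x)`, integrating the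
derivative of `(t - x) ^ k (t (1 - t)) ^ (p + 1)` over `[x, 1]`, `k = 0, 1, 2`, gives
`2 (p + 1) m₁ = (p + 1) s m₀ + q ^ (p + 1)`, `(2 p + 3) m₂ = (p + 2) s m₁ + q m₀`, `(2 p + 4) m₃ = (p + 3) s m₂ + 2 q m₁`. With `s ^ 2 = 1 - 4 q` (field_simp, ring)
`m₁ m₃ - m₂ ^ 2 = α m₀ ^ 2 + β m₀ g + γ g ^ 2`, where
`α = ((p + 1) - 2 D q) / (8 D ^ 2)`, `β = s q (1 / D + q / (p + 2)) / (4 D)`, `γ = q ^ 2 ((p + 1) + (4 p ^ 2 + 12 p + 10) q / (p + 2)) / (8 (p + 1) ^ 2 D ^ 2)`.
Now `α g = (s q ^ (p + 1) / (8 D ^ 2))'` and `m₀' = - g`; integration by parts (everything is a polynomial times `m₀`; the boundary terms are `0` as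
`q(0) = q(1) = 0`): `∫ g α m₀ ^ 2 = ∫ s q ^ (2 p + 1) m₀ / (4 D ^ 2)`. So `∫ g (α m₀ ^ 2 + β m₀ g) = ∫ s m₀ (q ^ (2 p + 1) / (2 D ^ 2) + q ^ (2 p + 2) / (4 D (p + 2)))
= ∫ g (q ^ (2 p + 2) / (4 D ^ 2 (p + 1)) + q ^ (2 p + 3) / (4 D ^ 2 (p + 2)))` (by parts again, `s q ^ k = (q ^ (k + 1) / (k + 1))'`). With
`L k = ∫ q ^ k = (k!) ^ 2 / (2 k + 1)!` the whole integral is `(3 (p + 1) L (3 p + 2) + (6 p ^ 2 + 16 p + 12) / (p + 2) * L (3 p + 3)) / (8 D ^ 2 (p + 1) ^ 2)
= 3 (3 p + 4) (3 p + 5) ((3 p + 2)!) ^ 2 / (8 D ^ 2 (p + 1) (p + 2) (6 p + 7) (6 p + 5)!)`, which is the claim. (A shorter way may be to check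
that `∫ g (m₁ m₃ - m₂ ^ 2)` is the integral of a derivative of an explicit function.) -/
def J_INT : Prop := ∀ p : ℕ, ∫ x in (0 : ℝ)..1, (x * (1 - x)) ^ p * (mo p 1 x * mo p 3 x - mo p 2 x ^ 2) =
  3 * ((3 * p + 5)! : ℝ) ^ 2 / ((6 * p + 10)! * (2 * p + 3) * (p + 2) * (p + 1) ^ 2)

end Pool.Agent.Q160.SY
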